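import Pool.Agent.Helper541_BML.Bridge

/-!
# Free flow in the random grid traffic model: three possibilities

For every density `p` in `(0,1)` one of three things happens: almost surely every car is blocked
infinitely often; or almost surely every east car is blocked only finitely often and no north car
has free-flow limiting velocity; or the same with the two types exchanged.
-/

set_option autoImplicit false

namespace Pool.Agent.Results.MP_64a6bd_pr.FreeFlowTrichotomy

open MeasureTheory ProbabilityTheory Filter Topology
open Pool.Agent.Helper541_BML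

/-- Let every site of the square lattice hold independently an east car with probability `p / 2`, a
north car with probability `p / 2`, and no car otherwise, where `0 < p < 1`. Then almost surely
every car is blocked infinitely often, or almost surely the east cars are all blocked only finitely
often while no north car has free-flow limiting velocity, or the same with the types exchanged.
Here `nm d x t` is the number of moves made in the first `t` cycles by the car which starts at
`x`. -/
theorem result (p : ℝ) (hp0 : 0 < p) (hp1 : p < 1)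
    {Ω : Type} [MeasurableSpace Ω] (P : Measure Ω) [IsProbabilityMeasure P]
    (c : ℤ × ℤ → Ω → Fin 3) (hc : ∀ x, Measurable (c x)) (hind : iIndepFun c P)
    (hlaw : ∀ x, P {ω | c x ω = 1} = ENNReal.ofReal (p / 2) ∧
      P {ω | c x ω = 2} = ENNReal.ofReal (p / 2)) :
    (∀ᵐ ω ∂P, ∀ x, c x ω ≠ 0 → ∀ T : ℕ, ∃ t, T ≤ t ∧
      nm (fun y => c y ω) x (t + 1) = nm (fun y => c y ω) x t) ∨
    (∀ᵐ ω ∂P,
      (∀ x, c x ω = 1 → ∃ T : ℕ, ∀ t, T ≤ t →
        nm (fun y => c y ω) x (t + 1) = nm (fun y => c y ω) x t + 1) ∧
      (∀ x, c x ω = 2 →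
        ¬ Tendsto (fun t : ℕ => (nm (fun y => c y ω) x t : ℝ) / (t : ℝ)) atTop (𝓝 1))) ∨
    (∀ᵐ ω ∂P,
      (∀ x, c x ω = 2 → ∃ T : ℕ, ∀ t, T ≤ t →
        nm (fun y => c y ω) x (t + 1) = nm (fun y => c y ω) x t + 1) ∧
      (∀ x, c x ω = 1 →
        ¬ Tendsto (fun t : ℕ => (nm (fun y => c y ω) x t : ℝ) / (t : ℝ)) atTop (𝓝 1))) := by
  obtain ⟨ν, hν, h1, h2, h3⟩ := bridge hc hind hlaw
  have g1 : ν {1} ≠ 0 := by rw [h1]; exact half_ne_zero hp0
  have g2 : ν {2} ≠ 0 := by rw [h2]; exact half_ne_zero hp0
  rcases trichotomy ν g1 g2 with h | h | h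
  · left
    filter_upwards [transfer hc h3 h] with ω hω x hx T
    have h4 := hω x hx
    unfold FB at h4
    push Not at h4
    obtain ⟨t, ht, h5⟩ := h4 T
    refine ⟨t, ht, ?_⟩
    rcases nm_succ (d := fun y => c y ω) hx t with h6 | h6
    · exact h6
    · exact absurd h6 h5
  · right; left
    exact transfer hc h3 h
  · right; right
    exact transfer hc h3 h

end Pool.Agent.Results.MP_64a6bd_pr.FreeFlowTrichotomy
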