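import Pool.Agent.Helper541_BML.Bridge

/-!
# Jamming in the random grid traffic model: all cars or none

For every density `p` in `(0,1)`: either almost surely every car is eventually jammed, or almost
surely no car is eventually jammed.
-/

set_option autoImplicit false

namespace Pool.Agent.Results.MP_64a6bd_pr.JamAllOrNone

open MeasureTheory ProbabilityTheory Filter Topology
open Pool.Agent.Helper541_BML

/-- Let every site of the square lattice hold independently an east car with probability `p / 2`, a
north car with probability `p / 2`, and no car otherwise, where `0 < p < 1`. Then either almost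
surely every car is eventually jammed, or almost surely every car makes infinitely many moves.
Here `nm d x t` is the number of moves made in the first `t` cycles by the car which starts at
`x`. -/
theorem result (p : ℝ) (hp0 : 0 < p) (hp1 : p < 1)
    {Ω : Type} [MeasurableSpace Ω] (P : Measure Ω) [IsProbabilityMeasure P]
    (c : ℤ × ℤ → Ω → Fin 3) (hc : ∀ x, Measurable (c x)) (hind : iIndepFun c P)
    (hlaw : ∀ x, P {ω | c x ω = 1} = ENNReal.ofReal (p / 2) ∧
      P {ω | c x ω = 2} = ENNReal.ofReal (p / 2)) :
    (∀ᵐ ω ∂P, ∀ x, c x ω ≠ 0 → ∃ T : ℕ, ∀ t, T ≤ t →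
      nm (fun y => c y ω) x t = nm (fun y => c y ω) x T) ∨
    (∀ᵐ ω ∂P, ∀ x, c x ω ≠ 0 →
      Tendsto (fun t : ℕ => nm (fun y => c y ω) x t) atTop atTop) := by
  obtain ⟨ν, hν, h1, h2, h3⟩ := bridge hc hind hlaw
  rcases jam_all_or_none ν (by rw [h1]; exact half_ne_zero hp0)
    (by rw [h2]; exact half_ne_zero hp0) (by rw [h1]; exact half_ne_one hp1)
    (by rw [h2]; exact half_ne_one hp1) with h | h
  · left
    exact transfer hc h3 h
  · right
    filter_upwards [transfer hc h3 h] with ω hω x hx
    have h4 := hω x hx
    rw [JM_iff hx] at h4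
    push Not at h4
    refine tendsto_atTop_atTop_of_monotone (nm_mono (d := fun y => c y ω) hx) fun b => ?_
    obtain ⟨t, ht⟩ := h4 b
    exact ⟨t, ht.le⟩

end Pool.Agent.Results.MP_64a6bd_pr.JamAllOrNone
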