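import Pool.Agent.Helper541_BML.Log

/-!
# The expected number of blockings grows at least logarithmically

For every density `p` in `(0,1)`, the expected number of cycles among the first `n` in which the car
at the origin (if there is one) is blocked is at least `(p ^ 2 / 4)` times the integer part of the
logarithm of `2 n + 1` to base `3`.
-/

set_option autoImplicit false

namespace Pool.Agent.Results.MP_64a6bd_pr.LogBlockings

open MeasureTheory ProbabilityTheory Filter Topology
open Pool.Agent.Helper541_BML

/-- Let every site of the square lattice hold independently an east car with probability `p / 2`, a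
north car with probability `p / 2`, and no car otherwise, where `0 < p < 1`. The expected number of
the first `n` cycles in which the car starting at the origin is blocked (counted as zero when there
is no car at the origin) is at least `(p ^ 2 / 4) * Nat.log 3 (2 * n + 1)`. Here `nm d x t` is the
number of moves made in the first `t` cycles by the car which starts at `x`, so that the number of
blocked cycles among the first `n` is `n - nm d x n`. -/
theorem result (p : ℝ) (hp0 : 0 < p) (hp1 : p < 1)
    {Ω : Type} [MeasurableSpace Ω] (P : Measure Ω) [IsProbabilityMeasure P]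
    (c : ℤ × ℤ → Ω → Fin 3) (hc : ∀ x, Measurable (c x)) (hind : iIndepFun c P)
    (hlaw : ∀ x, P {ω | c x ω = 1} = ENNReal.ofReal (p / 2) ∧
      P {ω | c x ω = 2} = ENNReal.ofReal (p / 2)) (n : ℕ) :
    p ^ 2 / 4 * (Nat.log 3 (2 * n + 1) : ℝ) ≤
      ∫ ω in {ω | c 0 ω ≠ 0}, ((n : ℝ) - (nm (fun y => c y ω) 0 n : ℝ)) ∂P := by
  obtain ⟨ν, hν, h1, h2, h3⟩ := bridge hc hind hlaw
  have hhalf : (0 : ℝ) ≤ p / 2 := by linarith
  have r1 : ν.real {1} = p / 2 := by
    rw [measureReal_def, h1, ENNReal.toReal_ofReal hhalf]
  have r2 : ν.real {2} = p / 2 := by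
    rw [measureReal_def, h2, ENNReal.toReal_ofReal hhalf]
  have h4 := log_blocked ν n
  rw [r1, r2] at h4
  have hm : Measurable (fun ω x => c x ω) := measurable_pi_iff.2 hc
  have hA : MeasurableSet {d : Cfg | d 0 ≠ 0} := (ms_coord 0 0).compl
  have h5 : ∫ d in {d : Cfg | d 0 ≠ 0}, ((n : ℝ) - (nm d 0 n : ℝ)) ∂(Law ν) =
      ∫ ω in {ω | c 0 ω ≠ 0}, ((n : ℝ) - (nm (fun y => c y ω) 0 n : ℝ)) ∂P := by
    rw [← h3, setIntegral_map hA ((measurable_nmR 0 n).const_sub _).aestronglyMeasurable
      hm.aemeasurable]
    rfl
  rw [← h5]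
  calc p ^ 2 / 4 * (Nat.log 3 (2 * n + 1) : ℝ) = (Nat.log 3 (2 * n + 1) : ℝ) * (p / 2 * (p / 2)) := by
        ring
    _ ≤ _ := h4

end Pool.Agent.Results.MP_64a6bd_pr.LogBlockings
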