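import Pool.Agent.Helper541_BML.Vel

/-!
# An upper bound for the speed in the random grid traffic model

For every density `p` in `(0,1)`, almost surely every car has lower speed at most `2 (1 - p) / p`.
In particular no car has free-flow limiting velocity when `p > 2 / 3`.
-/

set_option autoImplicit false

namespace Pool.Agent.Results.MP_64a6bd_pr.SpeedBound

open MeasureTheory ProbabilityTheory Filter Topology
open Pool.Agent.Helper541_BML

/-- Let every site of the square lattice hold independently an east car with probability `p / 2`, a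
north car with probability `p / 2`, and no car otherwise, where `0 < p < 1`. Then almost surely the
number of moves of every car in the first `t` cycles is below `v t` for infinitely many `t`, for
every `v > 2 (1 - p) / p`. Here `nm d x t` is the number of moves made in the first `t` cycles by
the car which starts at `x`. -/
theorem result (p : ℝ) (hp0 : 0 < p) (hp1 : p < 1)
    {Ω : Type} [MeasurableSpace Ω] (P : Measure Ω) [IsProbabilityMeasure P]
    (c : ℤ × ℤ → Ω → Fin 3) (hc : ∀ x, Measurable (c x)) (hind : iIndepFun c P)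
    (hlaw : ∀ x, P {ω | c x ω = 1} = ENNReal.ofReal (p / 2) ∧
      P {ω | c x ω = 2} = ENNReal.ofReal (p / 2)) :
    ∀ᵐ ω ∂P, ∀ x, c x ω ≠ 0 → ∀ v : ℝ, 2 * (1 - p) / p < v →
      ∃ᶠ t : ℕ in atTop, (nm (fun y => c y ω) x t : ℝ) < v * t := by
  obtain ⟨ν, hν, h1, h2, h3⟩ := bridge hc hind hlaw
  have hhalf : (0 : ℝ) ≤ p / 2 := by linarith
  have r1 : ν.real {1} = p / 2 := by
    rw [measureReal_def, h1, ENNReal.toReal_ofReal hhalf]
  have r2 : ν.real {2} = p / 2 := by
    rw [measureReal_def, h2, ENNReal.toReal_ofReal hhalf]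
  have r0 : ν.real {0} = 1 - p := by
    have := sum_fin3 ν
    linarith
  set v₀ : ℝ := 2 * (1 - p) / p with hv₀
  have key : ∀ j : ℕ, ∀ k : Fin 3, k ≠ 0 →
      ∀ᵐ d ∂(Law ν), ∀ x, d x = k → ¬ LB (v₀ + 1 / ((j : ℝ) + 1)) d x := by
    intro j k hk
    apply vel_bound ν hk
    have rk : ν.real {k} = p / 2 := by
      rcases fin3 k with h | h | h
      · exact absurd h hk
      · rw [h, r1]
      · rw [h, r2]
    rw [r0, rk]
    have e : v₀ * (p / 2) = 1 - p := by
      rw [hv₀]
      field_simp
    have hpos : 0 < 1 / ((j : ℝ) + 1) * (p / 2) := by positivity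
    rw [add_mul, e]
    linarith
  have key2 : ∀ᵐ d ∂(Law ν), ∀ (j : ℕ) (k : Fin 3), k ≠ 0 → ∀ x, d x = k →
      ¬ LB (v₀ + 1 / ((j : ℝ) + 1)) d x := by
    rw [ae_all_iff]
    intro j
    rw [ae_all_iff]
    intro k
    by_cases hk : k = 0
    · exact Eventually.of_forall fun d h => absurd hk h
    · filter_upwards [key j k hk] with d hd _
      exact hd
  filter_upwards [transfer hc h3 key2] with ω hω x hx v hv
  obtain ⟨j, hj⟩ := exists_nat_one_div_lt (sub_pos.2 hv)
  have h4 := hω j (c x ω) hx x rfl
  unfold LB at h4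
  push Not at h4
  obtain ⟨n, h5⟩ := h4
  rw [frequently_atTop]
  intro T
  obtain ⟨t, ht, h6⟩ := h5 T
  refine ⟨t, ht, lt_of_lt_of_le h6 ?_⟩
  apply mul_le_mul_of_nonneg_right _ (Nat.cast_nonneg t)
  have : 0 < 1 / ((n : ℝ) + 1) := by positivity
  linarith

end Pool.Agent.Results.MP_64a6bd_pr.SpeedBound
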